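import Pool.Agent.H8.AV3.Stmts3

/-!
# Board `av3b`, module ETA: the Jacobian of a form of the Selmer group
-/

set_option autoImplicit false

namespace Pool.Agent.H1.AV3B

open Polynomial Matrix Pool.AVR Pool.AV3

namespace ETA

theorem jb4_map {R S : Type} [CommRing R] [CommRing S] (φ : R →+* S) (c : Fin 10 → R) :
    jb4 (fun i => φ (c i)) = φ (jb4 c) := by
  simp only [jb4, map_add, map_sub, map_neg, map_mul, map_pow, map_ofNat]

theorem jb6_map {R S : Type} [CommRing R] [CommRing S] (φ : R →+* S) (c : Fin 10 → R) :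
    jb6 (fun i => φ (c i)) = φ (jb6 c) := by
  simp only [jb6, map_add, map_sub, map_neg, map_mul, map_pow, map_ofNat]

theorem Jc_map {R S : Type} [CommRing R] [CommRing S] (φ : R →+* S) (τ : R) (c : Fin 10 → R) :
    Jc (φ τ) (fun i => φ (c i)) = (φ (Jc τ c).1, φ (Jc τ c).2.1, φ (Jc τ c).2.2) := by
  simp only [Jc, jb4_map, jb6_map, map_sub, map_add, map_mul, map_pow]

theorem onC_of {K : Type} [Field K] {a b c x y : K} (h : (E a b c).toAffine.Nonsingular x y) :
    OnC a b c x y := by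
  have := (WeierstrassCurve.Affine.equation_iff x y).1 h.1
  simp only [E] at this
  unfold OnC
  linear_combination this

theorem Jc_FQ {K : Type} [Field K] (τ : K) (hτ : 2 * τ = 1) (f : K × K × K) (P : PtT f) :
    Jc τ (FQ P) = f := by
  rcases P with _ | ⟨x, y, h⟩
  · exact Jc_FO τ _ _ _ hτ
  · exact Jc_FP τ _ _ _ x y hτ (onC_of h)

theorem hf_two {F : Type} [Field F] (h2 : (2 : F) ≠ 0) : (2 : F[X]) * hf F = 1 := by
  unfold hf
  have : (2 : F[X]) = C (2 : F) := by rw [map_ofNat]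
  rw [this, ← C_mul, mul_inv_cancel₀ h2, C_1]

/-- The Jacobian over an extension of the field of fractions. -/
theorem core {F : Type} [Field F] (h2 : (2 : F) ≠ 0) (hJER : JERStmt) (f : F[X] × F[X] × F[X])
    (hf0 : (3 : F) ≠ 0 ∨ f.1 ≠ 0) (L : Type) [Field L] (ι : RatFunc F →+* L)
    (c : Fin 10 → F[X]) (hc : Cls (k3 ι f) (fun i => ι (mp c i))) :
    ∃ p : F[X], Jc (hf F) c = sh p f := by
  obtain ⟨P, g, hg⟩ := hc
  let ψ : F[X] →+* L := ι.comp (algebraMap F[X] (RatFunc F))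
  have hψ : Function.Injective ψ := ι.injective.comp (RatFunc.algebraMap_injective F)
  have hτ : 2 * ψ (hf F) = 1 := by
    have h1 := congrArg ψ (hf_two h2)
    rw [map_mul, map_ofNat, map_one] at h1
    exact h1
  obtain ⟨η, hη⟩ := hJER L (ψ (hf F)) hτ g _ _ hg
  rw [Jc_FQ _ hτ] at hη
  have h1 : Jc (ψ (hf F)) (fun i => ι (mp c i)) =
      (ψ (Jc (hf F) c).1, ψ (Jc (hf F) c).2.1, ψ (Jc (hf F) c).2.2) := Jc_map ψ (hf F) c
  rw [h1] at hη
  generalize Jc (hf F) c = A at hη ⊢
  obtain ⟨A1, A2, A3⟩ := A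
  obtain ⟨a, b, d⟩ := f
  have e1 : ψ A1 = ψ a + 3 * η := congrArg (fun q => q.1) hη
  have e2 : ψ A2 = ψ b + 2 * ψ a * η + 3 * η ^ 2 := congrArg (fun q => q.2.1) hη
  have e3 : ψ A3 = ψ d + ψ b * η + ψ a * η ^ 2 + η ^ 3 := congrArg (fun q => q.2.2) hη
  -- it is enough that `η` is the image of a polynomial
  suffices hp : ∃ p : F[X], ψ p = η by
    obtain ⟨p, rfl⟩ := hp
    refine ⟨p, ?_⟩
    simp only [sh, Prod.mk.injEq]
    refine ⟨?_, ?_, ?_⟩
    · apply hψ
      rw [e1]
      simp only [map_add, map_mul, map_ofNat]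
    · apply hψ
      rw [e2]
      simp only [map_add, map_mul, map_pow, map_ofNat]
    · apply hψ
      rw [e3]
      simp only [map_add, map_mul, map_pow]
  by_cases h3 : (3 : F) = 0
  · have ha : a ≠ 0 := hf0.resolve_left fun h => h h3
    have h3L : (3 : L) = 0 := by
      have h4 : ψ (C (3 : F)) = 0 := by rw [h3, C_0, map_zero]
      have h5 : (C (3 : F) : F[X]) = 3 := map_ofNat C 3
      rw [h5, map_ofNat] at h4
      exact h4
    have h2L : (2 : L) ≠ 0 := fun h => one_ne_zero (α := L) (by rw [← hτ, h, zero_mul])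
    have haL : ψ a ≠ 0 := (map_ne_zero_iff ψ hψ).2 ha
    have h2R : (2 : RatFunc F) ≠ 0 := by
      intro h
      apply h2L
      have := congrArg ι h
      rw [map_ofNat, map_zero] at this
      exact this
    have haR : algebraMap F[X] (RatFunc F) a ≠ 0 :=
      (map_ne_zero_iff _ (RatFunc.algebraMap_injective F)).2 ha
    obtain ⟨θ, hθ⟩ : ∃ θ : RatFunc F, ι θ = η := by
      refine ⟨(algebraMap F[X] (RatFunc F) A2 - algebraMap F[X] (RatFunc F) b) /
        (2 * algebraMap F[X] (RatFunc F) a), ?_⟩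
      rw [map_div₀, map_sub, map_mul, map_ofNat]
      have hi : ∀ q : F[X], ι (algebraMap F[X] (RatFunc F) q) = ψ q := fun q => rfl
      rw [hi, hi, hi, div_eq_iff (mul_ne_zero h2L haL), e2, h3L]
      ring
    have hint : IsIntegral F[X] θ := by
      refine ⟨X ^ 3 + C a * X ^ 2 + C b * X + C (d - A3), ?_, ?_⟩
      · monicity!
      · simp only [eval₂_add, eval₂_mul, eval₂_pow, eval₂_X, eval₂_C]
        apply ι.injective
        have hi : ∀ q : F[X], ι (algebraMap F[X] (RatFunc F) q) = ψ q := fun q => rfl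
        simp only [map_add, map_mul, map_pow, hi, hθ, map_zero, map_sub]
        rw [e3]
        ring
    obtain ⟨p, hp⟩ := IsIntegrallyClosed.isIntegral_iff.1 hint
    exact ⟨p, by rw [← hθ, ← hp]; rfl⟩
  · refine ⟨C (3 : F)⁻¹ * (A1 - a), ?_⟩
    have h4 : ψ (C (3 : F)⁻¹) * 3 = 1 := by
      have h5 : (C (3 : F)⁻¹ : F[X]) * 3 = 1 := by
        have h6 : (C (3 : F) : F[X]) = 3 := map_ofNat C 3
        rw [← h6, ← C_mul, inv_mul_cancel₀ h3, C_1]
      have h7 := congrArg ψ h5
      rw [map_mul, map_ofNat, map_one] at h7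
      exact h7
    rw [map_mul, map_sub, e1]
    linear_combination η * h4

end ETA

open ETA in
theorem eta_thm (hJER : JERStmt) (hSEC : SECStmt) : ETAStmt := by
  intro F _ _ h2 n d f hf c hc hs
  refine ⟨hc, ?_⟩
  obtain ⟨L, _, O, ι, -, hcl⟩ := ((hSEC F h2 f).1 _ hs).1 X monic_X irreducible_X
  exact core h2 hJER f hf.2 L ι c hcl

end Pool.Agent.H1.AV3B
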