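import Pool.Agent.H8.AV3.Stmts3

/-!
# Board `av3b`, module LCU3: many pairs (lattice, good point)
-/

set_option autoImplicit false

namespace Pool.Agent.H1.AV3B

open Polynomial Matrix Pool.AVR Pool.AV3 WeierstrassCurve.Affine

namespace LCU3

section Points

variable {K : Type} [Field K]

theorem onC_of {a b c x y : K} (h : (E a b c).toAffine.Nonsingular x y) : OnC a b c x y := by
  have := (WeierstrassCurve.Affine.equation_iff x y).1 h.1
  simp only [E] at this
  unfold OnC
  linear_combination this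

theorem negY_E (a b c x y : K) : (E a b c).toAffine.negY x y = -y := by
  simp [WeierstrassCurve.Affine.negY, E]

theorem ns_of {a b c x y : K} (h2 : (2 : K) ≠ 0) (h : OnC a b c x y) (hy : y ≠ 0) :
    (E a b c).toAffine.Nonsingular x y := by
  rw [WeierstrassCurve.Affine.nonsingular_iff', WeierstrassCurve.Affine.equation_iff]
  simp only [E]
  unfold OnC at h
  refine ⟨by linear_combination h, Or.inr ?_⟩
  intro h3
  exact (mul_ne_zero h2 hy) (by linear_combination h3)

theorem pt_ext {a b c x y x' y' : K} {h : (E a b c).toAffine.Nonsingular x y}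
    {h' : (E a b c).toAffine.Nonsingular x' y'} (hx : x = x') (hy : y = y') :
    (Point.some x y h : Pt a b c) = Point.some x' y' h' := by
  subst hx hy
  rfl

variable [DecidableEq K]

omit [DecidableEq K] in
theorem neg_ns {a b c x y : K} (h : (E a b c).toAffine.Nonsingular x y) :
    (E a b c).toAffine.Nonsingular x (-y) := by
  have := (WeierstrassCurve.Affine.nonsingular_neg x y).2 h
  rw [negY_E] at this
  exact this

omit [DecidableEq K] in
theorem neg_pt {a b c x y : K} (h : (E a b c).toAffine.Nonsingular x y) :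
    -(Point.some x y h : Pt a b c) = Point.some x (-y) (neg_ns h) := by
  rw [Point.neg_some]
  exact pt_ext rfl (negY_E a b c x y)

/-- Two points with the same abscissa are equal or opposite. -/
theorem eq_or_neg {a b c x y y' : K} (h : (E a b c).toAffine.Nonsingular x y)
    (h' : (E a b c).toAffine.Nonsingular x y') :
    (Point.some x y h : Pt a b c) = Point.some x y' h' ∨
      (Point.some x y h : Pt a b c) = -(Point.some x y' h' : Pt a b c) := by
  have e1 := onC_of h
  have e2 := onC_of h'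
  unfold OnC at e1 e2
  have e3 : y ^ 2 = y' ^ 2 := by rw [e1, e2]
  rcases sq_eq_sq_iff_eq_or_eq_neg.1 e3 with h3 | h3
  · left
    exact pt_ext rfl h3
  · right
    rw [neg_pt]
    exact pt_ext rfl h3

/-- The difference of two points. -/
theorem diff_pt {a b c x y x' y' : K} (h : (E a b c).toAffine.Nonsingular x y)
    (h' : (E a b c).toAffine.Nonsingular x' y') (hx : x ≠ x') :
    ∃ (X Y : K) (H : (E a b c).toAffine.Nonsingular X Y),
      (Point.some x y h : Pt a b c) - Point.some x' y' h' = Point.some X Y H ∧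
      X = ((y + y') / (x - x')) ^ 2 - a - x - x' := by
  have hxy : ¬(x = x' ∧ y = (E a b c).toAffine.negY x' (-y')) := fun h3 => hx h3.1
  refine ⟨_, _, WeierstrassCurve.Affine.nonsingular_add h (neg_ns h') hxy, ?_, ?_⟩
  · rw [sub_eq_add_neg, neg_pt]
    exact Point.add_some hxy
  · rw [WeierstrassCurve.Affine.slope_of_X_ne hx]
    simp only [WeierstrassCurve.Affine.addX, E]
    rw [sub_neg_eq_add]
    ring

end Points

section Pairs

variable {L : Type} [Field L]

theorem kp_push {I : Set L} {π : L} {c c' : Fin 10 → L} {g g0 : Matrix (Fin 3) (Fin 3) L}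
    {v : Fin 3 → L} (h : Eqv g c c') (hk : KP3 I π c' g0 v) : KP3 I π c (g * g0) v := by
  obtain ⟨k1, k2, k3⟩ := hk
  have hg : g.det ≠ 0 := h.1.ne_zero
  have e : ∀ i, tsub c (g * g0) i / (g * g0).det = tsub c' g0 i / g0.det := by
    intro i
    rw [← Pool.AV3.tsub_mul, h.2, tsub_smul_form, det_mul, Pi.smul_apply, smul_eq_mul]
    field_simp
  refine ⟨?_, ?_, ?_⟩
  · rw [det_mul]
    exact mul_ne_zero hg k1
  · intro i
    rw [e]
    exact k2 i
  · simp only [e]
    exact k3

/-- `z` modulo `π` is not proportional to `v`. -/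
def NP (O : ValuationSubring L) (π : L) (v z : Fin 3 → L) : Prop :=
  ¬ ∃ t : L, AVS.UI (O : Set L) t ∧ ∀ i, (z i - t * v i) / π ∈ O

/-- The pair `(G, v)` avoids the vector `u`. -/
def Av (O : ValuationSubring L) (π : L) (G : Matrix (Fin 3) (Fin 3) L) (v u : Fin 3 → L) :
    Prop := ∀ (z : Fin 3 → L) (r : L), r ≠ 0 → G *ᵥ z = r • u → NP O π v z

theorem inq {O : ValuationSubring L} {π : L} {g G G' : Matrix (Fin 3) (Fin 3) L}
    {v v' u : Fin 3 → L} (hg : IsUnit g.det) {ρ : L} (hρ : ρ ≠ 0) (himg : G' *ᵥ v' = ρ • u)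
    (hav : Av O π G v u) : ¬ Eq3 (O : Set L) π (g * G) v (g * G') v' := by
  rintro ⟨κ, r, hκ, hr, hG, t, ht, hv⟩
  refine hav (κ *ᵥ v') (ρ / r) (div_ne_zero hρ hr) ?_ ⟨t, ht, hv⟩
  have h1 : G' = r • (G * κ) := by
    have h2 := congrArg (fun M => g⁻¹ * M) hG
    simp only [Matrix.mul_smul] at h2
    rw [← Matrix.mul_assoc, Matrix.nonsing_inv_mul g hg, Matrix.one_mul, Matrix.mul_assoc g,
      ← Matrix.mul_assoc g⁻¹, Matrix.nonsing_inv_mul g hg, Matrix.one_mul] at h2
    exact h2
  rw [h1, Matrix.smul_mulVec, ← Matrix.mulVec_mulVec] at himg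
  have h3 : G *ᵥ (κ *ᵥ v') = r⁻¹ • (ρ • u) := by
    rw [← himg, smul_smul, inv_mul_cancel₀ hr, one_smul]
  rw [h3, smul_smul]
  congr 1
  field_simp

end Pairs

theorem roots_fin {L : Type} [Field L] (a b c : L) :
    {x : L | x ^ 3 + a * x ^ 2 + b * x + c = 0}.Finite := by
  have hne : (cub a b c) ≠ 0 := by
    intro h
    have h1 := congrArg (fun p => coeff p 3) h
    simp [cub] at h1
  refine Set.Finite.subset (Polynomial.finite_setOfPred_isRoot hne) ?_
  intro x hx
  simp only [Set.mem_ofPred_eq, IsRoot, cub, eval_add, eval_mul, eval_pow, eval_X, eval_C] at hx ⊢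
  exact hx

end LCU3

open LCU3 in
theorem lcu3_thm (hLAV : LAVStmt) (hTRG : TRGStmt) (hLTL : LTLStmt) (hEBW : AVS.EBWStmt)
    (hDSC : DSCStmt) (hEQR : EQRStmt) (hDVP : DVPStmt) : LCU3Stmt := by
  intro L _ O π hL a b c hdisc c₀ hcls
  classical
  have h2 : (2 : L) ≠ 0 := hL.two.1
  have hD : disc (a : L) (b : L) (c : L) ≠ 0 := by
    have e : disc (O.subtype a) (O.subtype b) (O.subtype c) = O.subtype (disc a b c) := by
      simp only [disc, map_add, map_sub, map_mul, map_pow, map_ofNat]
    intro h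
    apply hdisc
    apply Subtype.coe_injective
    exact e.symm.trans h
  have hsep : (cub (a : L) (b : L) (c : L)).Separable := ((hDSC L h2 _ _ _).1).2 hD
  have hLAV' := hLAV L O π hL ((a : L), (b : L), (c : L)) hD c₀ hcls
  have hltl : ∀ {x y : L}, OnC (a : L) (b : L) (c : L) x y →
      ∃ (g : Matrix (Fin 3) (Fin 3) L) (v : Fin 3 → L) (s : L),
      KP3 (O : Set L) π (FP (a : L) (b : L) x y) g v ∧ s ≠ 0 ∧ g *ᵥ v = s • (e1 : Fin 3 → L) ∧
      ∀ X Y : L, OnC (a : L) (b : L) (c : L) X Y → X ∈ O → X ≠ x →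
        Av O π g v ![(Y + y) / (X - x), X, 1] := by
    intro x y hon
    obtain ⟨g, v, s, k1, k2, k3, k4⟩ := hLTL L O π hL a b c x y a.2 b.2 c.2 hon
    refine ⟨g, v, s, k1, k2, k3, ?_⟩
    intro X Y hXY hX hne z r hr hz
    exact k4 X Y _ hXY hX hne (div_mul_cancel₀ _ (sub_ne_zero.2 hne)) z r hr hz
  refine ⟨?_, ?_⟩
  · obtain ⟨Q, hQ, g, hg⟩ := hLAV' {0} (Set.finite_singleton _)
    rcases Q with _ | ⟨x₀, y₀, h₀⟩
    · exact absurd rfl hQ
    · obtain ⟨g0, v, s, k1, -⟩ := hltl (onC_of h₀)
      refine ⟨fun _ => g⁻¹ * g0, fun _ => v, fun _ => kp_push hg.symm k1, ?_⟩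
      intro i j hij
      exact absurd (Subsingleton.elim i j) hij
  · intro N hN
    obtain ⟨s, hs1, hs2, hs3⟩ := hEBW L O π hL N a b c hN _ (roots_fin (a : L) b c)
    have hy : ∀ p : {p // p ∈ s}, p.1.2 ≠ 0 := by
      intro p h0
      obtain ⟨-, -, k3, k4⟩ := hs1 p.1 p.2
      apply k4
      unfold OnC at k3
      rw [h0] at k3
      simp only [Set.mem_ofPred_eq]
      linear_combination -k3
    have hns : ∀ p : {p // p ∈ s},
        (E (a : L) (b : L) (c : L)).toAffine.Nonsingular p.1.1 p.1.2 :=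
      fun p => ns_of h2 (hs1 p.1 p.2).2.2.1 (hy p)
    let T : {p // p ∈ s} → Pt (a : L) (b : L) (c : L) := fun p => Point.some p.1.1 p.1.2 (hns p)
    let B : Set (Pt (a : L) (b : L) (c : L)) :=
      {0} ∪ (Set.range T ∪ (Set.range (fun p => -T p) ∪ (Set.range (fun p => T p + T p + T p) ∪
        (Set.range (fun pq : {p // p ∈ s} × {p // p ∈ s} =>
            T pq.1 + T pq.1 + T pq.1 + (T pq.2 - T pq.1)) ∪
          Set.range (fun pq : {p // p ∈ s} × {p // p ∈ s} =>
            T pq.1 + T pq.1 + T pq.1 - (T pq.2 - T pq.1))))))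
    have hB : B.Finite := by
      refine (Set.finite_singleton _).union ((Set.finite_range _).union
        ((Set.finite_range _).union ((Set.finite_range _).union
          ((Set.finite_range _).union (Set.finite_range _)))))
    obtain ⟨Q, hQ, g, hg⟩ := hLAV' B hB
    rcases Q with _ | ⟨x₀, y₀, h₀⟩
    · exact absurd (Or.inl rfl) hQ
    · have hq1 : ∀ p, (Point.some x₀ y₀ h₀ : Pt (a : L) (b : L) (c : L)) ≠ T p :=
        fun p h => hQ (Or.inr (Or.inl ⟨p, h.symm⟩))
      have hq2 : ∀ p, (Point.some x₀ y₀ h₀ : Pt (a : L) (b : L) (c : L)) ≠ -T p :=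
        fun p h => hQ (Or.inr (Or.inr (Or.inl ⟨p, h.symm⟩)))
      have hq3 : ∀ p, (Point.some x₀ y₀ h₀ : Pt (a : L) (b : L) (c : L)) ≠ T p + T p + T p :=
        fun p h => hQ (Or.inr (Or.inr (Or.inr (Or.inl ⟨p, h.symm⟩))))
      have hq4 : ∀ p q, (Point.some x₀ y₀ h₀ : Pt (a : L) (b : L) (c : L)) ≠
          T p + T p + T p + (T q - T p) :=
        fun p q h => hQ (Or.inr (Or.inr (Or.inr (Or.inr (Or.inl ⟨(p, q), h.symm⟩)))))
      have hq5 : ∀ p q, (Point.some x₀ y₀ h₀ : Pt (a : L) (b : L) (c : L)) ≠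
          T p + T p + T p - (T q - T p) :=
        fun p q h => hQ (Or.inr (Or.inr (Or.inr (Or.inr (Or.inr ⟨(p, q), h.symm⟩)))))
      have hx0 : ∀ p : {p // p ∈ s}, p.1.1 ≠ x₀ := by
        intro p h
        have h3 := h
        subst h
        rcases eq_or_neg h₀ (hns p) with h4 | h4
        · exact hq1 p h4
        · exact hq2 p h4
      -- the pair of `Q`
      obtain ⟨g₁, v₁, s₁, K1, -, -, K2⟩ := hltl (onC_of h₀)
      -- the pairs of the points
      have H : ∀ p : {p // p ∈ s}, ∃ (G : Matrix (Fin 3) (Fin 3) L) (v : Fin 3 → L),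
          KP3 (O : Set L) π (FP (a : L) (b : L) x₀ y₀) G v ∧
          (∃ ρ : L, ρ ≠ 0 ∧ G *ᵥ v = ρ • ![(p.1.2 + y₀) / (p.1.1 - x₀), p.1.1, 1]) ∧
          ∀ q : {p // p ∈ s}, q ≠ p →
            Av O π G v ![(q.1.2 + y₀) / (q.1.1 - x₀), q.1.1, 1] := by
        intro p
        obtain ⟨x', y', h', h, t1, t2, t3, t4⟩ := hTRG L h2 a b c hsep x₀ y₀ h₀ p.1.1 p.1.2
          (hns p) (hy p) (T p) rfl (hq1 p) (hq3 p)
        obtain ⟨g0, v, s0, l1, l2, l3, l4⟩ := hltl (onC_of h')
        refine ⟨h * g0, v, kp_push t2 l1, ?_, ?_⟩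
        · obtain ⟨s', hs', h3⟩ := t3 _ (hx0 p)
            (div_mul_cancel₀ (p.1.2 + y₀) (sub_ne_zero.2 (hx0 p)))
          refine ⟨s0 * s', mul_ne_zero l2 hs', ?_⟩
          rw [← Matrix.mulVec_mulVec, l3, Matrix.mulVec_smul, h3, smul_smul]
        · intro q hqp z r hr hz
          have hne : q.1 ≠ p.1 := fun h => hqp (Subtype.ext h)
          obtain ⟨hxx, hsl⟩ := hs2 q.1 q.2 p.1 p.2 hne
          obtain ⟨X, Y, HXY, hD1, hD2⟩ := diff_pt (hns q) (hns p) hxx
          have hXO : X ∈ O := by
            rw [hD2]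
            exact sub_mem (sub_mem (sub_mem (pow_mem hsl 2) a.2) (hs1 q.1 q.2).1)
              (hs1 p.1 p.2).1
          have hD3 : T q - T p = Point.some X Y HXY := hD1
          have hXx : X ≠ x' := by
            intro hX
            subst hX
            rcases eq_or_neg h' HXY with h5 | h5
            · apply hq4 p q
              rw [hD3, ← h5, t1]
              abel
            · apply hq5 p q
              rw [hD3]
              have h6 : (Point.some X y' h' : Pt (a : L) (b : L) (c : L)) =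
                  Point.some x₀ y₀ h₀ - (T p + T p + T p) := t1
              rw [h5] at h6
              have h7 : (Point.some x₀ y₀ h₀ : Pt (a : L) (b : L) (c : L)) =
                  (T p + T p + T p) + -(Point.some X Y HXY : Pt (a : L) (b : L) (c : L)) := by
                rw [h6]
                abel
              rw [h7, sub_eq_add_neg]
          have hsum : (Point.some q.1.1 q.1.2 (hns q) : Pt (a : L) (b : L) (c : L)) =
              T p + Point.some X Y HXY := by
            rw [← hD3]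
            show T q = T p + (T q - T p)
            abel
          obtain ⟨s', hs', h5⟩ := t4 q.1.1 q.1.2 (hns q) X Y HXY hsum (hx0 q) hXx
            ((Y + y') / (X - x')) ((q.1.2 + y₀) / (q.1.1 - x₀))
            (div_mul_cancel₀ _ (sub_ne_zero.2 hXx))
            (div_mul_cancel₀ _ (sub_ne_zero.2 (hx0 q)))
          have hinj : Function.Injective (fun u : Fin 3 → L => h *ᵥ u) :=
            Matrix.mulVec_injective_iff_isUnit.2
              ((Matrix.isUnit_iff_isUnit_det _).2 t2.1)
          have h6 : g0 *ᵥ z = (r / s') • ![(Y + y') / (X - x'), X, 1] := by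
            apply hinj
            show h *ᵥ (g0 *ᵥ z) = h *ᵥ ((r / s') • ![(Y + y') / (X - x'), X, 1])
            rw [Matrix.mulVec_mulVec, hz, Matrix.mulVec_smul, h5, smul_smul,
              div_mul_cancel₀ _ hs']
          exact l4 X Y (onC_of HXY) hXO hXx z (r / s') (div_ne_zero hr hs') h6
      choose Gf vf HK HI HS using H
      have hgi : IsUnit (g⁻¹).det := hg.symm.1
      let Gi : Option {p // p ∈ s} → Matrix (Fin 3) (Fin 3) L := fun i => i.elim g₁ Gf
      let vi : Option {p // p ∈ s} → Fin 3 → L := fun i => i.elim v₁ vf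
      have hKP : ∀ i, KP3 (O : Set L) π c₀ (g⁻¹ * Gi i) (vi i) := by
        intro i
        rcases i with _ | p
        · exact kp_push hg.symm K1
        · exact kp_push hg.symm (HK p)
      have hN : ∀ (i : Option {p // p ∈ s}) (q : {p // p ∈ s}), i ≠ some q →
          ¬ Eq3 (O : Set L) π (g⁻¹ * Gi i) (vi i) (g⁻¹ * Gi (some q)) (vi (some q)) := by
        intro i q hiq
        obtain ⟨ρ, hρ, himg⟩ := HI q
        refine inq hgi hρ himg ?_
        rcases i with _ | p
        · exact K2 q.1.1 q.1.2 (hs1 q.1 q.2).2.2.1 (hs1 q.1 q.2).1 (hx0 q)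
        · exact HS p q fun h => hiq (by rw [h])
      have hcard : Fintype.card (Option {p // p ∈ s}) = s.card + 1 := by
        rw [Fintype.card_option, Fintype.card_coe]
      let e := Fintype.equivFinOfCardEq hcard
      refine ⟨s.card + 1, ⟨fun i => g⁻¹ * Gi (e.symm i), fun i => vi (e.symm i), fun i => hKP _, ?_⟩,
        ?_⟩
      · have hmain : ∀ i j : Option {p // p ∈ s}, i ≠ j →
            ¬ Eq3 (O : Set L) π (g⁻¹ * Gi i) (vi i) (g⁻¹ * Gi j) (vi j) := by
          intro i j hij
          rcases j with _ | q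
          · rcases i with _ | p
            · exact absurd rfl hij
            · intro hE
              have hKi := hKP (some p)
              have hKj := hKP none
              exact hN none p (by simp) (((hEQR L (O : Set L) π (hDVP.2.2 L O π hL)).1 _ _ _ _
                hKi.1 hKi.2.2.1 hKj.2.2.1 hE))
          · exact hN i q hij
        intro i j hij
        exact hmain _ _ fun h => hij (e.symm.injective h)
      · calc _ ≤ s.card * AVS.kap O ^ (N - 1) + AVS.kap O ^ (N - 1) :=
              Nat.add_le_add_right hs3 _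
          _ = (s.card + 1) * AVS.kap O ^ (N - 1) := by ring

end Pool.Agent.H1.AV3B
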