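import Pool.Agent.H8.AV3.Stmts2

/-!
# Board `av3b`, module SMO: the cubics of the points are smooth
-/

set_option autoImplicit false

namespace Pool.Agent.H1.AV3B

open Polynomial Matrix Pool.AVR Pool.AV3

theorem smo_FO {L : Type} [Field L] (h2 : (2 : L) ≠ 0) (a b c : L)
    (hs : (cub a b c).Separable) (v : Fin 3 → L) (hv : v ≠ 0) (h0 : tev (FO a b c) v = 0) :
    ∃ w, tder (FO a b c) v w ≠ 0 := by
  by_contra hcon
  push Not at hcon
  have hx := hcon ![1, 0, 0]
  have hy := hcon ![0, 1, 0]
  have hz := hcon ![0, 0, 1]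
  have e0 : v 0 ^ 3 + a * (v 0 ^ 2 * v 2) + b * (v 0 * v 2 ^ 2) - v 1 ^ 2 * v 2 +
      c * v 2 ^ 3 = 0 := by
    rw [← h0]
    simp [tev, FO]
    ring
  have ex : 3 * v 0 ^ 2 + 2 * a * v 0 * v 2 + b * v 2 ^ 2 = 0 := by
    rw [← hx]
    simp [tder, FO]
    ring
  have ey : 2 * (v 1 * v 2) = 0 := by
    have : -(2 * (v 1 * v 2)) = 0 := by
      rw [← hy]
      simp [tder, FO]
      ring
    exact neg_eq_zero.1 this
  have ez : a * v 0 ^ 2 + 2 * b * v 0 * v 2 - v 1 ^ 2 + 3 * c * v 2 ^ 2 = 0 := by
    rw [← hz]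
    simp [tder, FO]
    ring
  rcases mul_eq_zero.1 ((mul_eq_zero.1 ey).resolve_left h2) with h1 | h1
  · by_cases hz0 : v 2 = 0
    · have hx0 : v 0 = 0 := by
        rw [hz0] at e0
        have : v 0 ^ 3 = 0 := by linear_combination e0
        exact pow_eq_zero_iff (by norm_num) |>.1 this
      apply hv
      funext i
      fin_cases i
      · exact hx0
      · exact h1
      · exact hz0
    · obtain ⟨p, q, hpq⟩ := hs
      have h3 := congrArg (fun P => eval (v 0 / v 2) P) hpq
      have h4 : eval (v 0 / v 2) (cub a b c) = 0 := by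
        simp only [cub, eval_add, eval_mul, eval_pow, eval_X, eval_C]
        field_simp
        rw [h1] at e0
        linear_combination e0
      have h5 : eval (v 0 / v 2) (derivative (cub a b c)) = 0 := by
        have h6 : ∀ t : L, eval t (derivative (cub a b c)) = 3 * t ^ 2 + 2 * a * t + b := by
          intro t
          simp [cub]
          ring
        have h7 : 3 * (v 0 / v 2) ^ 2 + 2 * a * (v 0 / v 2) + b =
            (3 * v 0 ^ 2 + 2 * a * v 0 * v 2 + b * v 2 ^ 2) / v 2 ^ 2 := by
          field_simp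
        rw [h6, h7, ex, zero_div]
      simp only [eval_add, eval_mul, h4, h5, mul_zero, add_zero, eval_one] at h3
      exact zero_ne_one h3
  · have hx0 : v 0 = 0 := by
      rw [h1] at e0
      have : v 0 ^ 3 = 0 := by linear_combination e0
      exact pow_eq_zero_iff (by norm_num) |>.1 this
    have hy0 : v 1 = 0 := by
      rw [h1, hx0] at ez
      have : v 1 ^ 2 = 0 := by linear_combination -ez
      exact pow_eq_zero_iff (by norm_num) |>.1 this
    apply hv
    funext i
    fin_cases i
    · exact hx0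
    · exact hy0
    · exact h1

theorem smo_thm (hSNG : SNGStmt) (hDSC : DSCStmt) : SMOStmt := by
  intro K L _ _ φ h2 f hf P
  classical
  have h2L : (2 : L) ≠ 0 := by
    intro h
    apply h2
    apply φ.injective
    rw [map_zero, ← h]
    exact map_ofNat φ 2
  have hsL : (cub (φ f.1) (φ f.2.1) (φ f.2.2)).Separable := by
    rw [((hDSC L h2L (φ f.1) (φ f.2.1) (φ f.2.2)).1)]
    have : disc (φ f.1) (φ f.2.1) (φ f.2.2) = φ (dsc f) := by
      simp only [disc, dsc, map_add, map_sub, map_mul, map_pow, map_ofNat]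
    rw [this]
    exact (map_ne_zero φ).2 hf
  intro v hv h0
  rcases P with _ | ⟨x, y, h⟩
  · have e1 : (fun i => φ (FQ (f := f) WeierstrassCurve.Affine.Point.zero i)) =
        FO (φ f.1) (φ f.2.1) (φ f.2.2) := by
      funext i
      fin_cases i <;> simp [FQ, FO]
    rw [e1] at h0 ⊢
    exact smo_FO h2L _ _ _ hsL v hv h0
  · have e1 : (fun i => φ (FQ (f := f) (WeierstrassCurve.Affine.Point.some x y h) i)) =
        FP (φ f.1) (φ f.2.1) (φ x) (φ y) := by
      funext i
      have h5 : φ (-2 * y) = -2 * φ y := by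
        rw [map_mul, map_neg]
        congr 2
        exact map_ofNat φ 2
      fin_cases i
      all_goals first | exact h5 | simp [FQ, FP]
    rw [e1] at h0 ⊢
    have hon : OnC f.1 f.2.1 f.2.2 x y := by
      have h3 := (WeierstrassCurve.Affine.equation_iff x y).1 h.1
      simp only [E] at h3
      unfold OnC
      linear_combination h3
    have honL : OnC (φ f.1) (φ f.2.1) (φ f.2.2) (φ x) (φ y) := by
      unfold OnC at hon ⊢
      have h4 := congrArg φ hon
      simpa only [map_add, map_mul, map_pow] using h4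
    exact hSNG L h2L _ _ _ hsL _ _ honL v hv h0

end Pool.Agent.H1.AV3B
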